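import Mathlib
import Pool.Agent.W517.Main

/-!
# Ample line bundles mapping to the tangent bundle in characteristic two

For every field `k` of characteristic two (in particular for every algebraically closed one) there
are a smooth projective threefold `X` over `k`, an ample line bundle `L` on `X` and a nonzero
morphism of `O_X`-modules `L → T_X`, such that `X` is not isomorphic to a projective space. The
threefold is the quadric `x₀² = x₁x₂ + x₃x₄` in `P⁴`, the line bundle is `O(1)` and the map to the
tangent bundle is `s ↦ s ∂/∂x₀` (a derivation of the homogeneous coordinate ring, because the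
derivative of `x₀²` is zero).

`X` is not isomorphic to `P^n`: the vector fields on `P^n` which vanish at a point `q` act on
`m_q / m_q²` by all endomorphisms, while for the point `q = (0:1:0:0:0)` of the quadric, with the
coordinates `y₀ = x₀/x₁`, `y₁ = x₃/x₁`, `y₂ = x₄/x₁`, they all map `y₁` to a multiple of `y₁`.
-/

set_option autoImplicit false

namespace Pool.Agent.Results.MP_63fcef_ag.QuadricThreefold

open AlgebraicGeometry CategoryTheory Pool.Agent.Helper922.VS Pool.Agent.W517

theorem result (k : Type) [Field k] [CharP k 2] :
    ∃ (X : Scheme.{0}) (p : X ⟶ Spec (CommRingCat.of k)),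
      IsProjectiveVariety p ∧ SmoothOfRelativeDimension 3 p ∧
      (∃ L : LineSheaf X, L.IsAmple ∧ ∃ φ : TangentMap p L, φ.Nonzero) ∧
      ∀ n : ℕ, ¬ ∃ e : X ≅ PSpace k n, e.hom ≫ PSpace.toSpec k n = p :=
  ⟨XQ k, projToSpec (gr k), XQ_projective k, XQ_smooth k,
    ⟨_, XQ_ample k, XQmap k, XQmap_nonzero k⟩,
    fun n ⟨e, he⟩ => not_iso n e he⟩

end Pool.Agent.Results.MP_63fcef_ag.QuadricThreefold
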